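import Pool.Agent.H815.QC.Stm

/-!
# Project QC, P5: dichotomy for the elements of the large factor
-/

set_option autoImplicit false

namespace Pool.Agent.H59.QC

open Pool.Agent.Y110.FJ Pool.Agent.T2H65.GP Pool.Agent.H815.QC

/-- conjugation to minimal support inside a standard subgroup -/
theorem mn_in {V : Type} [Finite V] (Λ : SimpleGraph V) (B : V → Type) [∀ v, Group (B v)]
    {S : V → Prop} {x : GrP Λ B} (hx : x ∈ std Λ B S) :
    ∃ (T : V → Prop) (y : GrP Λ B), (∀ t, T t → S t) ∧ y ∈ std Λ B S ∧ Mn Λ B T (y⁻¹ * x * y) := by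
  obtain ⟨T, c, hc⟩ := exists_Mn Λ B x
  have h1 := conj_std Λ B hx hc.1
  have h2 : (c⁻¹ * er Λ B S c)⁻¹ * (c⁻¹ * x * c) * (c⁻¹ * er Λ B S c) =
      (er Λ B S c)⁻¹ * x * er Λ B S c := by group
  have h3 : ∀ t, T t → S t ∧ T t := fun t ht =>
    Mn_sub Λ B (T' := fun v => S v ∧ T v) (c := c⁻¹ * er Λ B S c) hc (by rw [h2]; exact h1) t ht
  refine ⟨T, er Λ B S c, fun t ht => (h3 t ht).1, er_mem Λ B S c,
    std_mono Λ B (fun v hv => hv.2) h1, ?_⟩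
  intro T' hT' hex d hd
  refine hc.2 T' hT' hex (c⁻¹ * er Λ B S c * d) ?_
  have h4 : (c⁻¹ * er Λ B S c * d)⁻¹ * (c⁻¹ * x * c) * (c⁻¹ * er Λ B S c * d) =
      d⁻¹ * ((er Λ B S c)⁻¹ * x * er Λ B S c) * d := by group
  rw [h4]
  exact hd

/-- commutators of products -/
theorem comm_calc {G : Type} [Group G] {a1 a2 b1 b2 : G} (h11 : Commute a1 b1) (h12 : Commute a1 b2)
    (h21 : Commute b1 a2) (haa : Commute a1 a2) (hbb : Commute b1 b2) :
    (a1 * a2) * (b1 * b2) * (a1 * a2)⁻¹ * (b1 * b2)⁻¹ = a2 * b2 * a2⁻¹ * b2⁻¹ := by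
  have e1 : (a1 * a2) * (b1 * b2) = (a1 * b1) * (a2 * b2) := by
    calc (a1 * a2) * (b1 * b2) = a1 * (a2 * b1) * b2 := by group
      _ = a1 * (b1 * a2) * b2 := by rw [h21.eq]
      _ = (a1 * b1) * (a2 * b2) := by group
  have e2 : (b1 * b2) * (a1 * a2) = (a1 * b1) * (b2 * a2) := by
    calc (b1 * b2) * (a1 * a2) = b1 * (b2 * a1) * a2 := by group
      _ = b1 * (a1 * b2) * a2 := by rw [h12.eq]
      _ = (b1 * a1) * (b2 * a2) := by group
      _ = (a1 * b1) * (b2 * a2) := by rw [h11.eq]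
  have hc : Commute (a1 * b1) (a2 * b2 * a2⁻¹ * b2⁻¹) := by
    have c1 : Commute (a1 * b1) a2 := haa.mul_left h21
    have c2 : Commute (a1 * b1) b2 := h12.mul_left hbb
    exact ((c1.mul_right c2).mul_right c1.inv_right).mul_right c2.inv_right
  calc (a1 * a2) * (b1 * b2) * (a1 * a2)⁻¹ * (b1 * b2)⁻¹ =
      ((a1 * a2) * (b1 * b2)) * ((b1 * b2) * (a1 * a2))⁻¹ := by group
    _ = ((a1 * b1) * (a2 * b2)) * ((a1 * b1) * (b2 * a2))⁻¹ := by rw [e1, e2]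
    _ = (a1 * b1) * (a2 * b2 * a2⁻¹ * b2⁻¹) * (a1 * b1)⁻¹ := by group
    _ = a2 * b2 * a2⁻¹ * b2⁻¹ := by
        rw [mul_inv_eq_iff_eq_mul]
        exact hc.eq

theorem fin5a : ∀ v a b : Fin 5, (a = v + 1 ∨ v = a + 1) → (b = v + 1 ∨ v = b + 1) →
    ¬ (b = a + 1 ∨ a = b + 1) := by decide

theorem fin5b : ∀ v s t u : Fin 5, v = s + 1 → t = v + 1 → (s = u + 1 ∨ u = s + 1) →
    (t = u + 1 ∨ u = t + 1) → u = v := by decide

theorem fin5c : ∀ v : Fin 5, v = (v + 4) + 1 := by decide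

theorem fin5d : ∀ v t : Fin 5, v = t + 1 → t = v + 4 := by decide

theorem ind_nb (v : Fin 5) : Ind Γ1 (nb v) := by
  intro s t hs ht h
  exact fin5a v s.1 t.1 hs ht h

theorem adj_nb (v : Fin 5) (t s : V1) (ht : nb v t) (hs : cl v s) : Γ1.Adj t s := by
  have hs' : s.1 = v := hs
  rcases ht with h | h
  · right
    rw [hs']
    exact h
  · left
    rw [hs']
    exact h

theorem nb_cl_comm (v : Fin 5) {a b : P1} (ha : a ∈ std Γ1 B1 (nb v)) (hb : b ∈ std Γ1 B1 (cl v)) :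
    Commute a b :=
  std_comm Γ1 B1 (adj_nb v) ha hb

/-- P5: dichotomy for the elements of the large factor. -/
theorem P5_proof (hB1 : S_B1) (hB2 : S_B2) (hB3 : S_B3) : Pool.Agent.H815.QC.S_P5 := by
  intro N _ α hα hN v g x hx hx1
  have hx' : g⁻¹ * α x * g ∈ std Γ1 B1 (nb v) := mem_pb.1 hx
  obtain ⟨T, y, hT, hy, hM⟩ := mn_in Γ1 B1 hx'
  obtain ⟨X, hX⟩ : ∃ X : P1, X = y⁻¹ * (g⁻¹ * α x * g) * y := ⟨_, rfl⟩
  rw [← hX] at hM
  have hX1 : X ≠ 1 := by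
    intro h
    apply hx1
    apply hα.1
    rw [map_one]
    have h1 : α x = g * (y * X * y⁻¹) * g⁻¹ := by
      rw [hX]
      group
    rw [h1, h]
    group
  have hXe : (g * y)⁻¹ * α x * (g * y) = X := by
    rw [hX]
    group
  by_cases hc : (∀ t, T t → t.1 = v + 1) ∨ (∀ t, T t → v = t.1 + 1)
  · left
    rcases hc with hc | hc
    · refine ⟨v + 1, y, Or.inl rfl, hy, mem_pb.2 ?_⟩
      rw [hXe]
      exact std_mono Γ1 B1 (fun t ht => hc t ht) hM.1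
    · refine ⟨v + 4, y, Or.inr (fin5c v), hy, mem_pb.2 ?_⟩
      rw [hXe]
      exact std_mono Γ1 B1 (fun t ht => fin5d v t.1 (hc t ht)) hM.1
  · right
    rw [not_or, not_forall, not_forall] at hc
    obtain ⟨⟨s, hs⟩, ⟨t, ht⟩⟩ := hc
    rw [Classical.not_imp] at hs ht
    have hs1 : v = s.1 + 1 := (hT s hs.1).resolve_left hs.2
    have ht1 : t.1 = v + 1 := (hT t ht.1).resolve_right ht.2
    have hpp : ∀ u, pp Γ1 T u → cl v u := by
      intro u hu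
      exact fin5b v s.1 t.1 u.1 hs1 ht1 (hu s hs.1) (hu t ht.1)
    have hXn : X ∈ std Γ1 B1 (nb v) := std_mono Γ1 B1 hT hM.1
    obtain ⟨z, hz⟩ := hB2 V1 Γ1 B1 (fun _ => inferInstance) (nb v) (ind_nb v) X hXn hX1
    intro a b hax hbx
    have hcm : ∀ c : N, c * x = x * c → ((g * y)⁻¹ * α c * (g * y)) * X =
        X * ((g * y)⁻¹ * α c * (g * y)) := by
      intro c hcx
      rw [← hXe]
      calc (g * y)⁻¹ * α c * (g * y) * ((g * y)⁻¹ * α x * (g * y)) =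
          (g * y)⁻¹ * (α c * α x) * (g * y) := by group
        _ = (g * y)⁻¹ * (α x * α c) * (g * y) := by rw [← map_mul, hcx, map_mul]
        _ = (g * y)⁻¹ * α x * (g * y) * ((g * y)⁻¹ * α c * (g * y)) := by group
    obtain ⟨a1, ha1, a2, ha2, hae, hac⟩ := hB3 V1 Γ1 B1 T X hM _ (hcm a hax)
    obtain ⟨b1, hb1, b2, hb2, hbe, hbc⟩ := hB3 V1 Γ1 B1 T X hM _ (hcm b hbx)
    have ha1' : a1 ∈ std Γ1 B1 (nb v) := std_mono Γ1 B1 hT ha1
    have hb1' : b1 ∈ std Γ1 B1 (nb v) := std_mono Γ1 B1 hT hb1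
    have ha2' : a2 ∈ std Γ1 B1 (cl v) := std_mono Γ1 B1 hpp ha2
    have hb2' : b2 ∈ std Γ1 B1 (cl v) := std_mono Γ1 B1 hpp hb2
    have hab : Commute a1 b1 := by
      obtain ⟨i, hi⟩ := hz a1 ha1' hac
      obtain ⟨j, hj⟩ := hz b1 hb1' hbc
      have hi' : z ^ i = a1 := hi
      have hj' : z ^ j = b1 := hj
      rw [← hi', ← hj']
      exact (Commute.refl z).zpow_zpow i j
    have hK : a2 * b2 * a2⁻¹ * b2⁻¹ ∈ std Γ1 B1 (cl v) :=
      mul_mem (mul_mem (mul_mem ha2' hb2') (inv_mem ha2')) (inv_mem hb2')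
    have hcomm : (g * y)⁻¹ * α (a * b * a⁻¹ * b⁻¹) * (g * y) = a2 * b2 * a2⁻¹ * b2⁻¹ := by
      rw [← comm_calc hab (nb_cl_comm v ha1' hb2') (nb_cl_comm v hb1' ha2')
        (nb_cl_comm v ha1' ha2') (nb_cl_comm v hb1' hb2'), ← hae, ← hbe, map_mul, map_mul, map_mul,
        map_inv, map_inv]
      group
    refine mem_pb.2 ?_
    have h1 : g⁻¹ * α (a * b * a⁻¹ * b⁻¹) * g = y * (a2 * b2 * a2⁻¹ * b2⁻¹) * y⁻¹ := by
      rw [← hcomm]
      group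
    have h2 : y * (a2 * b2 * a2⁻¹ * b2⁻¹) * y⁻¹ = a2 * b2 * a2⁻¹ * b2⁻¹ := by
      rw [mul_inv_eq_iff_eq_mul]
      exact (nb_cl_comm v hy hK).eq
    rw [h1, h2]
    exact hK

end Pool.Agent.H59.QC
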